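import Mathlib
import Pool.Agent.Helper35.HG.StE

/-!
# Project HG, module RDX
-/

set_option autoImplicit false

namespace Helper42.HG

open Helper35.HG Helper35.HC Helper35.HSF Helper35.MS Helper35.PI Helper35.PI2 Helper32.CL

private lemma core (N g q κ kk Vx b T x e y1 A0 V0 cn : ℝ) (hN : 1 ≤ N) (hg : 0 ≤ g)
    (hq : q * (1 + g) = 1) (hq0 : 0 < q) (hκ0 : 0 ≤ κ) (hκ : κ ≤ 2 * N) (hkk0 : 0 ≤ kk) (hkk : kk ≤ κ)
    (hx : x = 64 / 3 * N ^ 2 * (g * (g + 2))) (he : e * N ^ 2 = 81 / 5120 * q)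
    (hy1 : y1 = 3 / 20 * (g * (g + 2)) * q) (hA0 : A0 = 433 / 1000 + 23 / 100 * x)
    (hV0 : V0 = 433 / 1000 + 3 / 10 * g) (hVx0 : 0 ≤ Vx) (hVx : Vx ≤ A0 - 3 / 10 * g)
    (hb : b ≤ 4 / 5 * Vx) (hT : T ≤ 4 / 5 * (Vx + κ * V0)) (hcn0 : 0 ≤ cn) (hcn : cn ≤ 1 / 2) :
    -(y1 * (1 + x + b)) + e * (A0 * (4 / 5) * T + cn * (V0 * (4 / 5)) * (2 * Vx + kk * V0) + x * b)
    ≤ -(6938 / 10000 * (16 / 5 * N ^ 2 * (g * (g + 2)) ^ 2 * q))
      + 323 / 10000 * (4 / 3 * N * (g * (g + 2))) + 105 / 10000 - 13 / 1000 * g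
      - 26 / 1000 * g ^ 2 := by
  have hN2 : 0 < N ^ 2 := by positivity
  have he0 : 0 < e := by
    by_contra h
    push Not at h
    have : e * N ^ 2 ≤ 0 := mul_nonpos_of_nonpos_of_nonneg h hN2.le
    rw [he] at this
    linarith
  have hγ : 0 ≤ g * (g + 2) := by positivity
  have hx0 : 0 ≤ x := by rw [hx]; positivity
  have hy0 : 0 ≤ y1 := by rw [hy1]; positivity
  have hA00 : 0 ≤ A0 := by rw [hA0]; positivity
  have hV00 : 0 ≤ V0 := by rw [hV0]; positivity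
  have hex : e * x = 9 / 4 * y1 := by
    rw [hx, hy1]
    calc e * (64 / 3 * N ^ 2 * (g * (g + 2))) = 64 / 3 * (e * N ^ 2) * (g * (g + 2)) := by ring
      _ = _ := by rw [he]; ring
  have heq : e ≤ 81 / 5120 * q := by
    rw [← he]; nlinarith [mul_nonneg he0.le (by nlinarith : (0:ℝ) ≤ N ^ 2 - 1)]
  have heκ : e * κ ≤ 81 / 2560 * q := by
    have h1 : e * κ ≤ e * (2 * N) := mul_le_mul_of_nonneg_left hκ he0.le
    have h2 : e * (2 * N) ≤ 2 * (e * N ^ 2) := by nlinarith [mul_nonneg he0.le (by nlinarith : (0:ℝ) ≤ N ^ 2 - N)]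
    rw [he] at h2
    linarith
  set z : ℝ := 4 / 3 * N * (g * (g + 2)) with hz
  have hz0 : 0 ≤ z := by rw [hz]; positivity
  have heκx : e * κ * x ≤ 81 / 160 * z * q := by
    have h1 : e * κ * x ≤ e * (2 * N) * x := by
      apply mul_le_mul_of_nonneg_right _ hx0
      exact mul_le_mul_of_nonneg_left hκ he0.le
    have h2 : e * (2 * N) * x = 81 / 160 * z * q := by
      rw [hx, hz]
      calc e * (2 * N) * (64 / 3 * N ^ 2 * (g * (g + 2))) = (e * N ^ 2) * (128 / 3 * N * (g * (g + 2))) := by ring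
        _ = _ := by rw [he]; ring
    linarith
  -- first reductions
  have s1 : y1 * b * (5 / 4) ≤ y1 * (A0 - 3 / 10 * g) := by
    have : y1 * b ≤ y1 * (4 / 5 * (A0 - 3 / 10 * g)) := by
      apply mul_le_mul_of_nonneg_left _ hy0
      linarith
    linarith
  have s2 : e * (A0 * (4 / 5) * T) ≤ e * (A0 * (4 / 5) * (4 / 5 * (A0 + κ * V0))) := by
    apply mul_le_mul_of_nonneg_left _ he0.le
    apply mul_le_mul_of_nonneg_left _ (by positivity)
    have : Vx ≤ A0 := by linarith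
    linarith
  have s3 : e * (cn * (V0 * (4 / 5)) * (2 * Vx + kk * V0)) ≤ e * (1 / 2 * (V0 * (4 / 5)) * (2 * A0 + κ * V0)) := by
    apply mul_le_mul_of_nonneg_left _ he0.le
    have t1 : cn * (V0 * (4 / 5)) ≤ 1 / 2 * (V0 * (4 / 5)) := mul_le_mul_of_nonneg_right hcn (by positivity)
    have t2 : 2 * Vx + kk * V0 ≤ 2 * A0 + κ * V0 := by
      have : kk * V0 ≤ κ * V0 := mul_le_mul_of_nonneg_right hkk hV00
      linarith
    exact mul_le_mul t1 t2 (by positivity) (by positivity)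
  have s4 : e * (x * b) = 9 / 4 * (y1 * b) := by
    calc e * (x * b) = (e * x) * b := by ring
      _ = _ := by rw [hex]; ring
  -- the variables r and q
  set r : ℝ := g * q with hr
  have hr0 : 0 ≤ r := by rw [hr]; positivity
  have hqr : q = 1 - r := by rw [hr]; linarith
  have hr2 : g * r = g - r := by rw [hr]; linear_combination g * hq
  have hyr : y1 = 3 / 20 * (g + r) := by
    rw [hy1]
    have : g * (g + 2) * q = g + r := by
      have : g * (g + 2) * q = g * r + 2 * r := by rw [hr]; ring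
      rw [this, hr2]; ring
    linear_combination 3 / 20 * this
  -- expansion of the upper bound
  have hY : y1 * x = 16 / 5 * N ^ 2 * (g * (g + 2)) ^ 2 * q := by rw [hx, hy1]; ring
  have hV0q : V0 * q = 433 / 1000 - 133 / 1000 * r := by
    rw [hV0]
    have : (433 / 1000 + 3 / 10 * g) * q = 433 / 1000 * q + 3 / 10 * r := by rw [hr]; ring
    rw [this, hqr]; ring
  have hV02q : V0 ^ 2 * q = 187489 / 1000000 - 187489 / 1000000 * r + 2598 / 10000 * r + 9 / 100 * (g - r) := by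
    have : V0 ^ 2 * q = V0 * (433 / 1000 - 133 / 1000 * r) := by rw [← hV0q]; ring
    rw [this, hV0]
    linear_combination (-(133 / 1000 * (3 / 10))) * hr2
  have b1 : e * V0 ≤ 81 / 5120 * (433 / 1000 - 133 / 1000 * r) := by
    have : e * V0 ≤ 81 / 5120 * q * V0 := mul_le_mul_of_nonneg_right heq hV00
    calc e * V0 ≤ 81 / 5120 * q * V0 := this
      _ = 81 / 5120 * (V0 * q) := by ring
      _ = _ := by rw [hV0q]
  have b2 : e * κ * V0 ≤ 81 / 2560 * (433 / 1000 - 133 / 1000 * r) := by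
    have : e * κ * V0 ≤ 81 / 2560 * q * V0 := mul_le_mul_of_nonneg_right heκ hV00
    calc e * κ * V0 ≤ 81 / 2560 * q * V0 := this
      _ = 81 / 2560 * (V0 * q) := by ring
      _ = _ := by rw [hV0q]
  have b3 : e * κ * V0 ^ 2 ≤ 81 / 2560 * (187489 / 1000000 - 187489 / 1000000 * r + 2598 / 10000 * r + 9 / 100 * (g - r)) := by
    have : e * κ * V0 ^ 2 ≤ 81 / 2560 * q * V0 ^ 2 := mul_le_mul_of_nonneg_right heκ (by positivity)
    calc e * κ * V0 ^ 2 ≤ 81 / 2560 * q * V0 ^ 2 := this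
      _ = 81 / 2560 * (V0 ^ 2 * q) := by ring
      _ = _ := by rw [hV02q]
  have b4 : e * κ * x * V0 ≤ 81 / 160 * (433 / 1000) * z := by
    have h1 : e * κ * x * V0 ≤ 81 / 160 * z * q * V0 := mul_le_mul_of_nonneg_right heκx hV00
    have h2 : 81 / 160 * z * q * V0 = 81 / 160 * z * (433 / 1000 - 133 / 1000 * r) := by
      rw [← hV0q]; ring
    have h3 : 0 ≤ z * r := mul_nonneg hz0 hr0
    rw [h2] at h1
    nlinarith
  have b5 : y1 * V0 = 433 / 1000 * y1 + 3 / 10 * (g * y1) := by rw [hV0]; ring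
  have b6 : g * y1 = 3 / 20 * (g ^ 2 + g - r) := by
    rw [hyr]
    linear_combination 3 / 20 * hr2
  -- expansion
  have ex1 : e * (A0 * (4 / 5) * (4 / 5 * (A0 + κ * V0))) =
      16 / 25 * (187489 / 1000000 * e + 2 * (433 / 1000) * (23 / 100) * (9 / 4 * y1)
        + 529 / 10000 * (9 / 4) * (y1 * x))
      + 16 / 25 * (433 / 1000 * (e * κ * V0) + 23 / 100 * (e * κ * x * V0)) := by
    rw [hA0]
    linear_combination (16 / 25 * (2 * (433 / 1000) * (23 / 100)) + 16 / 25 * (529 / 10000) * x) * hex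
  have ex2 : e * (1 / 2 * (V0 * (4 / 5)) * (2 * A0 + κ * V0)) =
      4 / 5 * (433 / 1000 * (e * V0) + 23 / 100 * (9 / 4) * (y1 * V0)) + 2 / 5 * (e * κ * V0 ^ 2) := by
    rw [hA0]
    linear_combination (4 / 5 * (23 / 100) * V0) * hex
  have ex3 : y1 * (A0 - 3 / 10 * g) = 433 / 1000 * y1 + 23 / 100 * (y1 * x) - 3 / 10 * (g * y1) := by
    rw [hA0]; ring
  have hY0 : 0 ≤ y1 * x := mul_nonneg hy0 hx0
  rw [← hY]
  rw [ex1] at s2
  rw [ex2, b5, b6] at s3
  rw [ex3, b6] at s1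
  have e5 : e ≤ 81 / 5120 * (1 - r) := by rw [← hqr]; exact heq
  have goal1 : -(y1 * (1 + x + b)) + e * (A0 * (4 / 5) * T + cn * (V0 * (4 / 5)) * (2 * Vx + kk * V0) + x * b)
      = -y1 - y1 * x - y1 * b + e * (A0 * (4 / 5) * T) + e * (cn * (V0 * (4 / 5)) * (2 * Vx + kk * V0))
        + e * (x * b) := by ring
  rw [goal1, s4]
  rw [hyr] at s1 s2 s3 ⊢
  nlinarith [s1, s2, s3, b1, b2, b3, b4, e5, hY0, hr0, hg, hz0, sq_nonneg g]

private lemma hh_pos (X : ℝ) (hX : 0 ≤ X) : 0 < hh X := by unfold hh; positivity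

private lemma hh_le (X : ℝ) (hX : 0 ≤ X) : hh X ≤ 1 := by
  unfold hh
  rw [div_le_one (by positivity)]
  linarith [mul_nonneg (by norm_num : (0:ℝ) ≤ 13 / 4) hX]

private lemma hh_eq (X : ℝ) (hX : 0 ≤ X) : hh X * (1 + 13 / 4 * X) = 1 := by
  unfold hh
  have : (1 + 13 / 4 * X : ℝ) ≠ 0 := by positivity
  field_simp

theorem hRDX (hRL1 : StRL1) (hRL2A : StRL2A) (hRL2B : StRL2B) (hRL3 : StRL3) (hRG2 : StRG2) :
    StRDX := by
  intro n k hn hk X x a b T S hX0 hXx ha0 haV hb0 hbV hT0 hTV hS0 hS1 hS2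
  have hnR : (16 : ℝ) ≤ n := by exact_mod_cast hn
  have hkR : 8 * ((k : ℝ) + 1) ≤ n := by exact_mod_cast hk
  have hk0 : (0 : ℝ) ≤ k := by positivity
  have hx0 : 0 ≤ x := le_trans hX0 hXx
  obtain ⟨hJ0, hG2, -, -⟩ := hRG2 n hn
  set N : ℝ := n / 16 with hN
  have hnN : (n : ℝ) = 16 * N := by rw [hN]; ring
  have hN1 : 1 ≤ N := by rw [hN]; linarith
  have hN0 : 0 < N := by linarith
  have hs : sn n = 3 / (64 * N ^ 2) := by
    unfold sn
    rw [hnN]
    field_simp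
    norm_num
  have hs0 : 0 ≤ sn n := by rw [hs]; positivity
  have hsN : sn n * (64 / 3 * N ^ 2) = 1 := by
    rw [hs]; field_simp
  set w : ℝ := Real.sqrt (1 + sn n * x) with hw
  set W : ℝ := Real.sqrt (1 + sn n * X) with hW
  have hw2 : w ^ 2 = 1 + sn n * x := Real.sq_sqrt (by positivity)
  have hW2 : W ^ 2 = 1 + sn n * X := Real.sq_sqrt (by positivity)
  have hw1 : 1 ≤ w := by
    rw [hw]
    exact Real.one_le_sqrt.2 (by linarith [mul_nonneg hs0 hx0])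
  have hW1 : 1 ≤ W := by
    rw [hW]
    exact Real.one_le_sqrt.2 (by linarith [mul_nonneg hs0 hX0])
  have hWw : W ≤ w := by
    rw [hw, hW]
    apply Real.sqrt_le_sqrt
    have := mul_le_mul_of_nonneg_left hXx hs0
    linarith
  obtain ⟨g, hg⟩ : ∃ g, g = w - 1 := ⟨_, rfl⟩
  obtain ⟨u, hu⟩ : ∃ u, u = W - 1 := ⟨_, rfl⟩
  have hwg : w = 1 + g := by rw [hg]; ring
  have hWu : W = 1 + u := by rw [hu]; ring
  have hg0 : 0 ≤ g := by rw [hg]; linarith
  have hu0 : 0 ≤ u := by rw [hu]; linarith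
  have hug : u ≤ g := by rw [hu, hg]; linarith
  have hsx : sn n * x = g * (g + 2) := by rw [hwg] at hw2; linarith
  have hsX : sn n * X = u * (u + 2) := by rw [hWu] at hW2; linarith
  have hxN : x = 64 / 3 * N ^ 2 * (g * (g + 2)) := by
    rw [← hsx]
    calc x = (sn n * (64 / 3 * N ^ 2)) * x := by rw [hsN, one_mul]
      _ = _ := by ring
  have hXN : X = 64 / 3 * N ^ 2 * (u * (u + 2)) := by
    rw [← hsX]
    calc X = (sn n * (64 / 3 * N ^ 2)) * X := by rw [hsN, one_mul]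
      _ = _ := by ring
  -- the functions
  have hPx : (pP n).P x = 3 / 10 * g := by
    show 3 / 10 * (Real.sqrt (1 + sn n * x) - 1) = _
    rw [← hw, hwg]; ring
  have hJX : (pP n).J X = Jf X - 3 / 5 * u := by
    show Jf X - 3 / 5 * (Real.sqrt (1 + sn n * X) - 1) = _
    rw [← hW, hWu]; ring
  have hJx : (pP n).J x = Jf x - 3 / 5 * g := by
    show Jf x - 3 / 5 * (Real.sqrt (1 + sn n * x) - 1) = _
    rw [← hw, hwg]; ring
  have hE : (pP n).E = 1 / 4 := rfl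
  have hK : (pP n).K = 23 / 100 := rfl
  have hV : (pP n).J X + (pP n).P x = Vf X u g := by
    rw [hJX, hPx]; unfold Vf; ring
  have hJf : ∀ y : ℝ, 0 ≤ y → Jf y ≤ 433 / 1000 + 23 / 100 * y ∧ 0 < Jf y := by
    intro y hy
    have h1 := hh_le y hy
    have h2 := hh_pos y hy
    unfold Jf
    constructor
    · linarith
    · positivity
  obtain ⟨V, hVd⟩ : ∃ V, V = Vf X u g := ⟨_, rfl⟩
  obtain ⟨V0, hV0d⟩ : ∃ V0 : ℝ, V0 = 433 / 1000 + 3 / 10 * g := ⟨_, rfl⟩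
  have hV0e : (pP n).J 0 + (pP n).P x = V0 := by rw [hJ0, hPx, hV0d]
  obtain ⟨Vx, hVxd⟩ : ∃ Vx, Vx = Jf x - 3 / 10 * g := ⟨_, rfl⟩
  have hVxe : (pP n).J x + (pP n).P x = Vx := by rw [hJx, hPx, hVxd]; ring
  rw [← hVd] at hV
  have hVpos : 0 < V := by rw [← hV]; exact (hG2 X x hX0 hXx).1
  have hVxpos : 0 < Vx := by rw [← hVxe]; exact (hG2 x x hx0 le_rfl).1
  have hV0pos : 0 < V0 := by rw [hV0d]; positivity
  -- first factor
  have hLD : V - (pP n).J1 X * X = Lf X + D1f u g := by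
    have h1 : (pP n).J1 X = 23 / 100 - 17 / 100 * (13 / 4) * hh X ^ 2 - 3 / 5 * (sn n / (2 * W)) := rfl
    have h2 : sn n / (2 * W) * X = u * (u + 2) / (2 * (1 + u)) := by
      rw [div_mul_eq_mul_div, hsX, hWu]
    have h3 := hh_eq X hX0
    have h4 : hh X ^ 2 * (13 / 4 * X) = hh X - hh X ^ 2 := by linear_combination hh X * h3
    have h5 : (1 + u) ≠ 0 := by positivity
    have h6 : -(3 / 5) * u + 3 / 5 * (u * (u + 2) / (2 * (1 + u))) = -(3 / 10 * u * (u / (1 + u))) := by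
      field_simp; ring
    rw [h1, hVd]
    unfold Vf Lf D1f Jf
    linear_combination 17 / 100 * h4 + 3 / 5 * h2 + h6
  -- the part with `x`
  obtain ⟨q, hqd⟩ : ∃ q : ℝ, q = 1 / (1 + g) := ⟨_, rfl⟩
  have hg1 : (0:ℝ) < 1 + g := by positivity
  have hq1 : q * (1 + g) = 1 := by rw [hqd]; field_simp
  have hq0 : 0 < q := by rw [hqd]; positivity
  obtain ⟨e, hed⟩ : ∃ e, e = (pP n).e x := ⟨_, rfl⟩
  have he1 : e = 27 / 80 * sn n * q := by
    rw [hed]
    show 27 / 40 * (sn n / (2 * Real.sqrt (1 + sn n * x))) = _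
    rw [← hw, hwg, hqd]; field_simp; ring
  have heN : e * N ^ 2 = 81 / 5120 * q := by
    rw [he1]
    linear_combination (27 / 80 * (3 / 64) * q) * hsN
  obtain ⟨y1, hy1d⟩ : ∃ y1, y1 = (pP n).P1 x * x := ⟨_, rfl⟩
  have hy1e : y1 = 3 / 20 * (g * (g + 2)) * q := by
    rw [hy1d]
    show 3 / 10 * (sn n / (2 * Real.sqrt (1 + sn n * x))) * x = _
    rw [← hw, hwg, hqd, ← hsx]; field_simp; ring
  have hbV' : b ≤ 4 / 5 * Vx := by
    rw [hE, hVxe] at hbV; linarith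
  have hTV' : T ≤ 4 / 5 * (Vx + ((k : ℝ) + 1) * V0) := by
    rw [hE, hVxe, hV0e] at hTV; linarith
  have haV' : a ≤ 4 / 5 * V := by
    rw [hE, hV] at haV; linarith
  have hκ : (k : ℝ) + 1 ≤ 2 * N := by rw [hnN] at hkR; linarith
  have hn0 : (0 : ℝ) < n := by linarith
  have hcn0 : 0 ≤ 4 * ((k : ℝ) + 1) / n := by positivity
  have hcn : 4 * ((k : ℝ) + 1) / n ≤ 1 / 2 := by
    rw [div_le_iff₀ hn0]; linarith
  have hcore := core N g q ((k : ℝ) + 1) k Vx b T x e y1 (433 / 1000 + 23 / 100 * x) V0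
    (4 * ((k : ℝ) + 1) / n) hN1 hg0 hq1 hq0 (by positivity) hκ hk0 (by linarith) hxN heN hy1e rfl hV0d
    hVxpos.le (by rw [hVxd]; linarith [(hJf x hx0).1]) hbV' hTV' hcn0 hcn
  -- `e1`
  have he1n : (pP n).e1 x * (x * (1 + x)) * T ≤ 0 := by
    have h1 : (pP n).e1 x ≤ 0 := by
      show -(27 / 40 * (sn n ^ 2 / (4 * Real.sqrt (1 + sn n * x) ^ 3))) ≤ 0
      rw [neg_nonpos]; positivity
    have h2 : (pP n).e1 x * (x * (1 + x)) ≤ 0 :=
      mul_nonpos_of_nonpos_of_nonneg h1 (by positivity)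
    exact mul_nonpos_of_nonpos_of_nonneg h2 hT0
  -- `R`
  obtain ⟨R, hRd⟩ : ∃ R : ℝ, R = 4 / n * max (S - V0) 0 := ⟨_, rfl⟩
  have h4n : (4 : ℝ) / n = 1 / (4 * N) := by rw [hnN]; field_simp; norm_num
  have hdx : 4 / n * (x - X) = 16 / 3 * N * (g * (g + 2) - u * (u + 2)) := by
    rw [h4n, hxN, hXN]; field_simp; ring
  have h4n0 : (0:ℝ) ≤ 4 / n := by positivity
  have hxX : 0 ≤ x - X := by linarith
  have hSV : S ≤ V0 + 23 / 100 * (x - X) := by
    have h1 : (pP n).J (x - X) ≤ Jf (x - X) := by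
      show Jf (x - X) - 3 / 5 * (Real.sqrt (1 + sn n * (x - X)) - 1) ≤ _
      have : 1 ≤ Real.sqrt (1 + sn n * (x - X)) :=
        Real.one_le_sqrt.2 (by linarith [mul_nonneg hs0 hxX])
      linarith
    have h2 := (hJf (x - X) hxX).1
    rw [hPx] at hS1
    rw [hV0d]; linarith
  have hR0 : 0 ≤ R := by rw [hRd]; positivity
  have hRH : RH X u g N R := by
    refine ⟨hN1, hu0, hug, hXN, hR0, ?_, ?_⟩
    · rw [← hdx, hRd]
      have : max (S - V0) 0 ≤ 23 / 100 * (x - X) := max_le (by linarith) (by positivity)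
      calc 4 / n * max (S - V0) 0 ≤ 4 / n * (23 / 100 * (x - X)) := mul_le_mul_of_nonneg_left this h4n0
        _ = _ := by ring
    · rw [← hdx, ← hV0d, hRd]
      have h1 : X * max (S - V0) 0 ≤ V0 * (x - X) := by
        rcases le_total (S - V0) 0 with h | h
        · rw [max_eq_right h, mul_zero]; positivity
        · rw [max_eq_left h]
          rw [hV0e] at hS2
          nlinarith
      calc X * (4 / n * max (S - V0) 0) = 4 / n * (X * max (S - V0) 0) := by ring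
        _ ≤ 4 / n * (V0 * (x - X)) := mul_le_mul_of_nonneg_left h1 h4n0
        _ = _ := by ring
  have hlast : 4 / n * (V - 1 / 4 * a) * (k * V0 + S) ≤ (V - 1 / 4 * a) * (V0 / 2 + R) := by
    have h0 : 0 ≤ V - 1 / 4 * a := by linarith
    have h1 : 4 / n * (k * V0 + S) ≤ V0 / 2 + R := by
      have h2 : S ≤ V0 + max (S - V0) 0 := by linarith [le_max_left (S - V0) 0]
      have h3 : 4 / n * (k * V0 + S) ≤ 4 / n * (((k : ℝ) + 1) * V0 + max (S - V0) 0) := by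
        apply mul_le_mul_of_nonneg_left _ h4n0
        linarith
      have h4 : 4 / n * (((k : ℝ) + 1) * V0) ≤ V0 / 2 := by
        have : 4 / n * (((k : ℝ) + 1) * V0) = (4 * ((k : ℝ) + 1) / n) * V0 := by ring
        rw [this]
        nlinarith
      have h5 : 4 / n * (((k : ℝ) + 1) * V0 + max (S - V0) 0)
          = 4 / n * (((k : ℝ) + 1) * V0) + R := by rw [hRd]; ring
      linarith
    calc 4 / n * (V - 1 / 4 * a) * (k * V0 + S) = (V - 1 / 4 * a) * (4 / n * (k * V0 + S)) := by ring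
      _ ≤ _ := mul_le_mul_of_nonneg_left h1 h0
  -- both ends
  have hF8 : FR (4 / 5) X u g N R ≤ 0 := by
    rcases le_total X (7 / 4) with h | h
    · exact (hRL1 X u g N R hRH h).1
    · rcases le_total g (3 / 10) with h2 | h2
      · exact hRL2A X u g N R hRH h h2
      · exact (hRL3 X u g N R hRH).1 h2
  have hF0 : FR 0 X u g N R ≤ 0 := by
    rcases le_total X (7 / 4) with h | h
    · exact (hRL1 X u g N R hRH h).2
    · rcases le_total g (2 / 5) with h2 | h2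
      · exact hRL2B X u g N R hRH h h2
      · exact (hRL3 X u g N R hRH).2 h2
  obtain ⟨Zz, hZz⟩ : ∃ Zz : ℝ, Zz = -(6938 / 10000 * (16 / 5 * N ^ 2 * (g * (g + 2)) ^ 2 * q))
      + 323 / 10000 * (4 / 3 * N * (g * (g + 2))) + 105 / 10000 - 13 / 1000 * g
      - 26 / 1000 * g ^ 2 := ⟨_, rfl⟩
  have hqdiv : 16 / 5 * N ^ 2 * (g * (g + 2)) ^ 2 / (1 + g) = 16 / 5 * N ^ 2 * (g * (g + 2)) ^ 2 * q := by
    rw [hqd]; ring
  have hFRe : ∀ c : ℝ, FR c X u g N R = (c * V + X + 1) * (Lf X + D1f u g) - 2 * V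
      + (1 - c / 4) * V * (V0 / 2 + R) + V / 100 + Zz := by
    intro c
    unfold FR
    rw [hqdiv, ← hVd, ← hV0d, hZz]; ring
  rw [hFRe] at hF8 hF0
  rw [← hZz] at hcore
  -- affine in `a`
  have haff : (a + X + 1) * (Lf X + D1f u g) - 2 * V + (V - 1 / 4 * a) * (V0 / 2 + R) + V / 100 + Zz ≤ 0 := by
    obtain ⟨θ, hθ0, hθ1, hθ⟩ : ∃ θ : ℝ, 0 ≤ θ ∧ θ ≤ 1 ∧ a = θ * (4 / 5 * V) := by
      refine ⟨a / (4 / 5 * V), by positivity, ?_, by field_simp⟩
      rw [div_le_one (by positivity)]; exact haV'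
    have h1 : (a + X + 1) * (Lf X + D1f u g) - 2 * V + (V - 1 / 4 * a) * (V0 / 2 + R) + V / 100 + Zz
        = θ * ((4 / 5 * V + X + 1) * (Lf X + D1f u g) - 2 * V
          + (1 - 4 / 5 / 4) * V * (V0 / 2 + R) + V / 100 + Zz)
        + (1 - θ) * ((0 * V + X + 1) * (Lf X + D1f u g) - 2 * V
          + (1 - 0 / 4) * V * (V0 / 2 + R) + V / 100 + Zz) := by
      rw [hθ]; ring
    rw [h1]
    have h2 := mul_nonpos_of_nonneg_of_nonpos hθ0 hF8
    have h3 := mul_nonpos_of_nonneg_of_nonpos (by linarith : (0:ℝ) ≤ 1 - θ) hF0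
    linarith
  rw [hE, hK, hJ0, hV]
  rw [hJ0] at hV0e
  rw [hV0e, hVxe, hLD, ← hed, ← hy1d]
  have hfin : e * ((433 / 1000 + 23 / 100 * x) / (1 + 1 / 4) * T
        + 4 * (k + 1) / n * (V0 / (1 + 1 / 4)) * (2 * Vx + k * V0) + x * b)
      = e * ((433 / 1000 + 23 / 100 * x) * (4 / 5) * T
        + 4 * ((k : ℝ) + 1) / n * (V0 * (4 / 5)) * (2 * Vx + k * V0) + x * b) := by ring
  rw [hfin]
  have hlast2 : 4 / n * (V - 1 / 4 * a) * (k * V0 + S) ≤ (V - 1 / 4 * a) * (V0 / 2 + R) := hlast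
  linarith

end Helper42.HG
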