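import Pool.Agent.Helper35.HG.StA

set_option autoImplicit false

namespace Pool.Agent.Helper42.HG

open Helper35.HG Helper35.HC Helper35.HSF Helper35.MS Helper35.PI Helper35.PI2 Helper32.CL
open scoped BigOperators

section Neg

variable {n N : ℕ}

private lemma bil_neg (X : Fin n → Fin n → ℝ) (c d : Fin n → ℝ) : bil X c (-d) = -bil X c d := by
  unfold bil
  simp only [Pi.neg_apply, mul_neg, Finset.sum_neg_distrib]

private lemma bilV_neg (A : Fin n → Fin n → EE N) (c d : Fin n → ℝ) :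
    bilV A c (-d) = -bilV A c d := by
  unfold bilV
  simp only [Pi.neg_apply, mul_neg, neg_smul, Finset.sum_neg_distrib]

private lemma Av_neg (A : Fin n → Fin n → EE N) (d : Fin n → ℝ) (k : Fin n) :
    Av A (-d) k = -Av A d k := by
  unfold Av
  simp only [Pi.neg_apply, neg_smul, Finset.sum_neg_distrib]

private lemma Sbl_neg (A : Fin n → Fin n → EE N) (c d : Fin n → ℝ) :
    Sbl A c (-d) = -Sbl A c d := by
  unfold Sbl
  simp only [Av_neg, inner_neg_right, Finset.sum_neg_distrib]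

private lemma Sbl_neg_neg (A : Fin n → Fin n → EE N) (d : Fin n → ℝ) :
    Sbl A (-d) (-d) = Sbl A d d := by
  unfold Sbl
  simp only [Av_neg, inner_neg_right, inner_neg_left, neg_neg]

private lemma RN1_neg (A : Fin n → Fin n → EE N) (P Q : Fin n → ℝ) (ν : EE N) :
    RN1 A P (-Q) ν = RN1 A P Q ν := by
  unfold RN1
  rw [bil_neg, bilV_neg, Sbl_neg, Sbl_neg_neg]
  simp only [Av_neg, inner_neg_right, inner_neg_left, neg_mul, Finset.sum_neg_distrib]
  ring

private lemma OP_neg {P Q : Fin n → ℝ} (h : OP P Q) : OP P (-Q) := by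
  obtain ⟨h1, h2, h3⟩ := h
  refine ⟨h1, ?_, ?_⟩
  · simpa using h2
  · simp only [Pi.neg_apply, mul_neg, Finset.sum_neg_distrib, h3, neg_zero]

end Neg

/-- the final computation -/
private lemma fin_calc {n r l E J X x V V0 J1 P1 e e1 T b a al κ2 S kk Zb CT K2 m2 W SqZ Z1 LHS : ℝ}
    (hn : 0 < n) (hr : 0 < r) (hl : 0 < l) (hl1 : l ≤ 1) (hE : 0 < E)
    (hX0 : 0 ≤ X) (hx0 : 0 ≤ x) (ha0 : 0 ≤ a) (he : 0 ≤ e) (he1 : e1 ≤ 0) (hT : 0 ≤ T)
    (hb : 0 ≤ b) (hV : 0 < V) (hV0 : 0 < V0) (hS : 0 ≤ S) (hkk : 0 ≤ kk)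
    (hal : al = n * r * a) (hm2 : m2 = X * r) (hK2 : K2 = al + n * m2)
    (hW : W = κ2 + E / n * al) (hWe : W / r + l * (e * T) = l * V)
    (hκ : 0 ≤ κ2)
    (hCT : CT ≤ 4 * κ2 * (r * (l * (kk * V0 + S))))
    (hSqZ : SqZ ≤ n ^ 2 * r ^ 2 * Zb)
    (hZ1 : Z1 = n * r ^ 2 * (x * b + x * (1 + x)))
    (hLHS : LHS = W * K2 + CT - n * r * W - l * J1 * (m2 * K2 + n * r * m2)
      + l * e * (SqZ / n - r * (n * r * T)) + l * e1 * T * Z1 - l * P1 * Z1)
    (hrea : (a + X + 1) * (V - J1 * X) - 2 * V - P1 * x * (1 + x + b) + e * Zb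
      + e1 * (x * (1 + x)) * T + 4 / n * (V - E * a) * (kk * V0 + S) ≤ -(1 / 100) * V) :
    LHS ≤ -(n / 100) * r ^ 2 * (l * V) := by
  have hWr : W = r * l * (V - e * T) := by
    field_simp at hWe
    linarith
  have hκr : κ2 ≤ r * (V - E * a) := by
    have h1 : κ2 = r * l * (V - e * T) - E * (r * a) := by
      have : E / n * al = E * (r * a) := by rw [hal]; field_simp
      linarith
    have h2 : r * l * (V - e * T) ≤ r * V := by
      have h3 : r * l * (V - e * T) ≤ r * l * V := by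
        have : 0 ≤ e * T := mul_nonneg he hT
        gcongr
        linarith
      have h4 : r * l * V ≤ r * 1 * V := by gcongr
      linarith
    nlinarith
  have hkV : 0 ≤ kk * V0 + S := by positivity
  have hCT2 : CT ≤ 4 * (r * (V - E * a)) * (r * (l * (kk * V0 + S))) := by
    refine hCT.trans ?_
    gcongr
  have h1 : l * e * (SqZ / n) ≤ l * e * (n * r ^ 2 * Zb) := by
    have h2 : SqZ / n ≤ n * r ^ 2 * Zb := by
      rw [div_le_iff₀ hn]
      calc SqZ ≤ n ^ 2 * r ^ 2 * Zb := hSqZ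
        _ = n * r ^ 2 * Zb * n := by ring
    gcongr
  have h2 : LHS ≤ n * r ^ 2 * l * ((V - e * T) * (a + X) - (V - e * T)
      + 4 / n * (V - E * a) * (kk * V0 + S) - J1 * X * (a + X + 1) + e * (Zb - T)
      + e1 * T * (x * b + x * (1 + x)) - P1 * (x * b + x * (1 + x))) := by
    have h3 : n * r ^ 2 * l * ((V - e * T) * (a + X) - (V - e * T)
      + 4 / n * (V - E * a) * (kk * V0 + S) - J1 * X * (a + X + 1) + e * (Zb - T)
      + e1 * T * (x * b + x * (1 + x)) - P1 * (x * b + x * (1 + x))) =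
      (r * l * (V - e * T)) * (n * r * (a + X)) - n * r * (r * l * (V - e * T))
        + 4 * (r * (V - E * a)) * (r * (l * (kk * V0 + S)))
        - l * J1 * (X * r * (n * r * (a + X)) + n * r * (X * r))
        + l * e * (n * r ^ 2 * Zb) - l * e * (r * (n * r * T))
        + l * e1 * T * (n * r ^ 2 * (x * b + x * (1 + x)))
        - l * P1 * (n * r ^ 2 * (x * b + x * (1 + x))) := by
      field_simp
      ring
    have hK2' : K2 = n * r * (a + X) := by rw [hK2, hal, hm2]; ring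
    rw [h3, hLHS, hWr, hK2', hm2, hZ1]
    have h4 : l * e * (SqZ / n - r * (n * r * T)) = l * e * (SqZ / n) - l * e * (r * (n * r * T)) := by
      ring
    linarith
  have h3 : (V - e * T) * (a + X) - (V - e * T)
      + 4 / n * (V - E * a) * (kk * V0 + S) - J1 * X * (a + X + 1) + e * (Zb - T)
      + e1 * T * (x * b + x * (1 + x)) - P1 * (x * b + x * (1 + x)) ≤
      (a + X + 1) * (V - J1 * X) - 2 * V - P1 * x * (1 + x + b) + e * Zb
      + e1 * (x * (1 + x)) * T + 4 / n * (V - E * a) * (kk * V0 + S) := by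
    have h5 : 0 ≤ e * T * (a + X) := by positivity
    have h6 : e1 * T * (x * b) ≤ 0 := by
      have : 0 ≤ T * (x * b) := by positivity
      have h7 : e1 * (T * (x * b)) ≤ 0 := mul_nonpos_of_nonpos_of_nonneg he1 this
      linarith
    nlinarith
  have h4 : n * r ^ 2 * l * ((V - e * T) * (a + X) - (V - e * T)
      + 4 / n * (V - E * a) * (kk * V0 + S) - J1 * X * (a + X + 1) + e * (Zb - T)
      + e1 * T * (x * b + x * (1 + x)) - P1 * (x * b + x * (1 + x))) ≤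
      n * r ^ 2 * l * (-(1 / 100) * V) := by
    apply mul_le_mul_of_nonneg_left (h3.trans hrea) (by positivity)
  calc LHS ≤ _ := h2
    _ ≤ _ := h4
    _ = _ := by ring

private lemma rea_pos (hCTS : StCTS) (hRNF : StRNF) (hFOC : StFOC) (hSQC : StSQC)
    (hSQF : StSQF) : ∀ n N k : ℕ, N = n + k + 3 → ∀ p : Prf, GPr n k p →
    ∀ (A : Fin n → Fin n → EE N) (r : ℝ) (L : EE n →ₗᵢ[ℝ] EE N) (x₀ : EE N), ASp n A r L x₀ →
    ∀ l : ℝ, 0 < l → l ≤ 1 → RgA n p l A r L x₀ → ∀ x T : ℝ, x = YY A / (n ^ 2 * r) - 1 →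
    T = thA2 A / (n * r) → ∀ (P Q : Fin n → ℝ) (ν : EE N), UN L x₀ ν → OP P Q →
    0 ≤ bil (kn A ν) P Q →
    ∀ X h : ℝ, h = inner ℝ (Hv A) ν → X = h ^ 2 / (n ^ 2 * r) →
    (bil (kn A ν) P Q ^ 2 + p.E / n * ip0 (kn A ν) (kn A ν)) / r + l * (p.e x * T)
      = l * (p.J X + p.P x) →
    RN1 A P Q ν + p.E / n * RN2 A ν
      - n * r * (bil (kn A ν) P Q ^ 2 + p.E / n * ip0 (kn A ν) (kn A ν))
      + l * p.e x * ((Sq A - ZZ A / n) / n - r * thA2 A)
      + l * p.e1 x * T * (ZZ A / n ^ 2 - r * YY A / n)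
      - l * p.J1 X * (RN3 A ν / n ^ 2 - r * h ^ 2 / n)
      - l * p.P1 x * (ZZ A / n ^ 2 - r * YY A / n)
    ≤ -(n / 100) * r ^ 2 * (l * (p.J X + p.P x)) := by
  intro n N k hN p hp A r L x₀ hA l hl hl1 hRg x T hx hT P Q ν hν hPQ hκ0 X h hh hX hEq
  have hn16 : 16 ≤ n := hp.n16
  have hnR : (0 : ℝ) < n := by
    have : 0 < n := by omega
    exact_mod_cast this
  have hn2 : 2 ≤ n := by omega
  have hr : 0 < r := hA.r0
  -- the pair is maximal
  have hmax : ∀ c d, OP c d → bil (kn A ν) c d ^ 2 ≤ bil (kn A ν) P Q ^ 2 := by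
    intro c d hcd
    have h1 := hRg ν hν c d hcd
    rw [← hx, ← hT, ← hh, ← hX] at h1
    have h2 : (bil (kn A ν) c d ^ 2 + p.E / n * ip0 (kn A ν) (kn A ν)) / r ≤
      (bil (kn A ν) P Q ^ 2 + p.E / n * ip0 (kn A ν) (kn A ν)) / r := by linarith
    rw [div_le_div_iff_of_pos_right hr] at h2
    linarith
  obtain ⟨e, S, hNF, hUN, he0, hS0, hS1, hS2, hCT⟩ := hCTS n N k hN p hp A r L x₀ hA l hl hl1 hRg x
    hx P Q ν hν hPQ hκ0 hmax X (by rw [hX, hh])
  obtain ⟨hq0, hqT, hq1, hq2, b, hb0, hb1, hb2, hZZ, hSqq⟩ := hSQC n N k hN p hp A r L x₀ hA l hl hl1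
    hRg x T hx hT
  have hSF := hSQF n N (k + 2) (by omega) A (fun α => kn A (e α)) r e x₀ hNF _ _ rfl rfl
  obtain ⟨-, hHv, -, -, -, -⟩ := hSF
  obtain ⟨hf1, hf2, hf3, hf4⟩ := hRNF n N (k + 1) hn2 A (fun α => kn A (e α)) r e x₀ hNF
  have hmt : h = n * mt (kn A (e 0)) := by
    rw [hh, ← he0, real_inner_comm]
    rw [real_inner_comm]
    exact hHv 0
  have hXm : X = mt (kn A (e 0)) ^ 2 / r := by
    rw [hX, hmt]
    field_simp
  have hFO := hFOC n N k p hp A r L x₀ hA l hl hl1 hRg (k + 1) (fun α => kn A (e α)) e hNF hUN P Q hPQ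
    (by
      rw [← hXm, ← hx, ← hT, he0]
      exact hEq)
  have hf5 := hf4 P Q hPQ (by rw [he0]; exact hκ0) (by rw [he0]; exact hmax)
  rw [← hXm] at hFO
  rw [he0] at hf1 hf2 hf3 hf5 hFO hmt hXm
  obtain ⟨hν1, hν2, hν3⟩ := hq2 ν hν
  rw [← hh, ← hX] at hν1 hν3
  -- abbreviations
  set K := kn A ν with hK
  obtain ⟨al, hal⟩ : ∃ al : ℝ, al = ip0 K K := ⟨_, rfl⟩
  obtain ⟨a, ha⟩ : ∃ a : ℝ, a = al / (n * r) := ⟨_, rfl⟩
  have hX0 : 0 ≤ X := by rw [hX]; positivity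
  have ha0 : 0 ≤ a := by rw [ha, hal]; positivity
  have hVX : 0 < p.J X + p.P x := hp.V0 X x hX0 hν1
  have hVx : 0 < p.J x + p.P x := hp.V0 x x hq0 le_rfl
  have hV0 : 0 < p.J 0 + p.P x := hp.V0 0 x le_rfl hq0
  have hlV : ∀ V : ℝ, 0 < V → l * V ≤ V := fun V hV => by
    have : l * V ≤ 1 * V := by gcongr
    linarith
  have hrea := hp.rea X x a b T S hX0 hν1 ha0
    (by rw [ha, hal]; exact hν3.trans (hlV _ hVX)) hb0 (hb1.trans (hlV _ hVx)) hqT
    (hq1.trans (hlV _ (by positivity))) hS0 hS1 hS2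
  -- sums
  have hsum : bil K P Q * ∑ j : Fin (k + 1), bil (kn A (e j.succ)) P Q * fip K (kn A (e j.succ)) +
      p.E / n * ∑ j : Fin (k + 1), fip K (kn A (e j.succ)) * ip0 K (kn A (e j.succ)) =
      l * p.J1 X * mt K * ∑ j : Fin (k + 1), mt (kn A (e j.succ)) * fip K (kn A (e j.succ)) := by
    rw [Finset.mul_sum, Finset.mul_sum, Finset.mul_sum, ← Finset.sum_add_distrib]
    apply Finset.sum_congr rfl
    intro j _
    have h1 := hFO j
    linear_combination (fip K (kn A (e j.succ))) * h1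
  have hsum2 : ∑ j : Fin (k + 1), n * mt (kn A (e j.succ)) * fip K (kn A (e j.succ)) =
      n * ∑ j : Fin (k + 1), mt (kn A (e j.succ)) * fip K (kn A (e j.succ)) := by
    rw [Finset.mul_sum]
    apply Finset.sum_congr rfl
    intro j _
    ring
  rw [hsum2] at hf2
  refine fin_calc (n := n) (r := r) (l := l) (E := p.E) (J := 0) (X := X) (x := x)
    (V := p.J X + p.P x) (V0 := p.J 0 + p.P x) (J1 := p.J1 X) (P1 := p.P1 x) (e := p.e x)
    (e1 := p.e1 x) (T := T) (b := b) (a := a) (al := al) (κ2 := bil K P Q ^ 2) (S := S) (kk := k)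
    (Zb := (p.J 0 + p.K * x) / (1 + p.E) * T
        + 4 * (k + 1) / n * ((p.J 0 + p.P x) / (1 + p.E))
          * (2 * (p.J x + p.P x) + k * (p.J 0 + p.P x)) + x * b)
    (CT := bil K P Q * (∑ j : Fin (k + 1), QB K (kn A (e j.succ)) P Q)
        + p.E / n * (∑ j : Fin (k + 1), cq K (kn A (e j.succ))))
    (K2 := fip K K) (m2 := mt K ^ 2) (W := bil K P Q ^ 2 + p.E / n * al)
    (SqZ := Sq A - ZZ A / n) (Z1 := ZZ A / n ^ 2 - r * YY A / n)
    hnR hr hl hl1 hp.E0 hX0 hq0 ha0 (hp.e0 x hq0) (hp.e10 x hq0) hqT hb0 hVX hV0 hS0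
    (by positivity) (by rw [ha]; field_simp) (by rw [hXm]; field_simp)
    (by rw [hf1, hal]) rfl (by rw [hal]; exact hEq) (by positivity)
    (by
      convert hCT using 2) hSqq hZZ ?_ ?_
  · have hthA : thA2 A = n * r * T := by rw [hT]; field_simp
    have h3 : RN3 A ν / n ^ 2 - r * h ^ 2 / n = mt K ^ 2 * fip K K +
        2 * mt K * (∑ j : Fin (k + 1), mt (kn A (e j.succ)) * fip K (kn A (e j.succ))) +
        n * r * mt K ^ 2 := by
      rw [hf2, hmt]
      field_simp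
      ring
    rw [h3, hf5, hf3, hthA, ← hal]
    linear_combination 2 * hsum
  · convert hrea using 1

theorem hREA : StCTS → StRNF → StFOC → StSQC → StSQF → StSPX → StREA := by
  intro hCTS hRNF hFOC hSQC hSQF _ n N k hN p hp A r L x₀ hA l hl hl1 hRg x T hx hT P Q ν hν hPQ X h
    hh hX hEq
  rcases le_total 0 (bil (kn A ν) P Q) with h0 | h0
  · exact rea_pos hCTS hRNF hFOC hSQC hSQF n N k hN p hp A r L x₀ hA l hl hl1 hRg x T hx hT P Q ν hν
      hPQ h0 X h hh hX hEq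
  · have h1 : bil (kn A ν) P (-Q) ^ 2 = bil (kn A ν) P Q ^ 2 := by rw [bil_neg]; ring
    have h2 := rea_pos hCTS hRNF hFOC hSQC hSQF n N k hN p hp A r L x₀ hA l hl hl1 hRg x T hx hT P
      (-Q) ν hν (OP_neg hPQ) (by rw [bil_neg]; linarith) X h hh hX (by rw [h1]; exact hEq)
    rw [h1, RN1_neg] at h2
    exact h2

end Pool.Agent.Helper42.HG
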