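import Pool.Agent.Helper80.HG.StL

/-!
Project HG (MP_1bacb5_al), part L, module LV: a Hardy field with finitely many comparability classes is levelled.
-/

set_option autoImplicit false

namespace Pool.Agent.Helper42.HG

open Pool.Agent.Helper80.HG Filter Topology

private lemma cmp_symm {a b : ℝ → ℝ} (h : Cmp a b) : Cmp b a := by
  obtain ⟨k, h1, h2⟩ := h
  exact ⟨k, h2, h1⟩

private lemma cmp_trans {a b c : ℝ → ℝ} (_ha : Tendsto a atTop atTop) (hb : Tendsto b atTop atTop)
    (_hc : Tendsto c atTop atTop) (h1 : Cmp a b) (h2 : Cmp b c) : Cmp a c := by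
  obtain ⟨k, h3, h4⟩ := h1
  obtain ⟨l, h5, h6⟩ := h2
  refine ⟨l * k, ?_, ?_⟩
  · filter_upwards [h3, h5, hb.eventually_ge_atTop 0] with x x3 x5 x0
    calc a x ≤ b x ^ k := x3
      _ ≤ (c x ^ l) ^ k := pow_le_pow_left₀ x0 x5 k
      _ = c x ^ (l * k) := by rw [← pow_mul]
  · filter_upwards [h4, h6, hb.eventually_ge_atTop 0] with x x4 x6 x0
    calc c x ≤ b x ^ l := x6
      _ ≤ (a x ^ k) ^ l := pow_le_pow_left₀ x0 x4 l
      _ = a x ^ (l * k) := by rw [← pow_mul, mul_comm]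

private lemma cmp_log {a b : ℝ → ℝ} (ha : Tendsto a atTop atTop) (hb : Tendsto b atTop atTop)
    (h : Cmp a b) : Cmp (fun x => Real.log (a x)) (fun x => Real.log (b x)) := by
  obtain ⟨k, h1, h2⟩ := h
  have key : ∀ a b : ℝ → ℝ, Tendsto a atTop atTop → Tendsto b atTop atTop →
      (∀ᶠ x in atTop, a x ≤ b x ^ k) → ∀ᶠ x in atTop, Real.log (a x) ≤ Real.log (b x) ^ 2 := by
    intro a b ha hb h1
    filter_upwards [h1, ha.eventually_gt_atTop 0, hb.eventually_gt_atTop 0,
      (Real.tendsto_log_atTop.comp hb).eventually_ge_atTop (k : ℝ)] with x x1 x2 x3 x4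
    have x5 : Real.log (a x) ≤ Real.log (b x ^ k) := Real.log_le_log x2 x1
    rw [Real.log_pow] at x5
    have x6 : (k : ℝ) ≤ Real.log (b x) := x4
    have x7 : (0 : ℝ) ≤ k := Nat.cast_nonneg k
    nlinarith
  exact ⟨2, key a b ha hb h1, key b a hb ha h2⟩

private lemma pow_mem {K : Set (ℝ → ℝ)} (hK : HK K) (b : ℝ → ℝ) (hb : b ∈ K) (n : ℕ) :
    (fun x => b x ^ n) ∈ K := by
  induction n with
  | zero =>
    have : (fun x => b x ^ 0) = fun _ => (1 : ℝ) := by
      funext x; exact pow_zero _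
    rw [this]
    exact hK.const 1
  | succ n ih =>
    have : (fun x => b x ^ (n + 1)) = fun x => b x ^ n * b x := by
      funext x; exact pow_succ _ _
    rw [this]
    exact hK.mul _ ih _ hb

private lemma big_of_not {K : Set (ℝ → ℝ)} (hK : HK K) (a b : ℝ → ℝ) (ha : a ∈ K) (hb : b ∈ K)
    (h : ¬ ∃ n : ℕ, ∀ᶠ x in atTop, a x ≤ b x ^ n) : Big a b := by
  intro k
  have hd : (fun x => a x + -1 * b x ^ k) ∈ K :=
    hK.add _ ha _ (hK.mul _ (hK.const (-1)) _ (pow_mem hK b hb k))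
  rcases hK.sign _ hd with h1 | h1 | h1
  · filter_upwards [h1] with x hx
    linarith
  · filter_upwards [h1] with x hx
    linarith
  · exfalso
    apply h
    refine ⟨k, ?_⟩
    filter_upwards [h1] with x hx
    linarith

private lemma exists_small {K : Set (ℝ → ℝ)} (hK : HK K) (hid : (fun x => x) ∈ K) (N : ℕ)
    (hN : ∀ g : ℕ → ℝ → ℝ, (∀ i ≤ N, g i ∈ K ∧ Tendsto (g i) atTop atTop) →
      ¬ ∀ i < N, Big (g i) (g (i + 1))) :
    ∃ u ∈ K, Tendsto u atTop atTop ∧
      ∀ h ∈ K, Tendsto h atTop atTop → ∃ n : ℕ, ∀ᶠ x in atTop, u x ≤ h x ^ n := by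
  by_contra hcon
  push Not at hcon
  have hstep : ∀ s : {u : ℝ → ℝ // u ∈ K ∧ Tendsto u atTop atTop},
      ∃ t : {u : ℝ → ℝ // u ∈ K ∧ Tendsto u atTop atTop}, Big s.1 t.1 := by
    intro s
    obtain ⟨h, hh, ht, hn⟩ := hcon s.1 s.2.1 s.2.2
    refine ⟨⟨h, hh, ht⟩, big_of_not hK _ _ s.2.1 hh ?_⟩
    rintro ⟨n, hn'⟩
    exact hn n (hn'.mono fun x hx => not_lt.2 hx)
  choose nx hnx using hstep
  set s0 : {u : ℝ → ℝ // u ∈ K ∧ Tendsto u atTop atTop} := ⟨fun x => x, hid, tendsto_id⟩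
  refine hN (fun i => (nx^[i] s0).1) (fun i _ => (nx^[i] s0).2) fun i _ => ?_
  have := hnx (nx^[i] s0)
  simp only [Function.iterate_succ_apply']
  exact this

private lemma t_iter {f : ℝ → ℝ} (hf : Tendsto f atTop atTop) (i : ℕ) :
    Tendsto (fun x => Real.log^[i] (f x)) atTop atTop :=
  (Tendsto.iterate Real.tendsto_log_atTop i).comp hf

private lemma reach {M K : Set (ℝ → ℝ)} (hM : HM M) (hHL : StHL) (hRO : StRO) (hKM : K ⊆ M)
    (hK : HK K) (N : ℕ)
    (hN : ∀ g : ℕ → ℝ → ℝ, (∀ i ≤ N, g i ∈ K ∧ Tendsto (g i) atTop atTop) →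
      ¬ ∀ i < N, Big (g i) (g (i + 1))) (u : ℝ → ℝ) (hu : u ∈ K) (hut : Tendsto u atTop atTop)
    (hsm : ∀ h ∈ K, Tendsto h atTop atTop → ∃ n : ℕ, ∀ᶠ x in atTop, u x ≤ h x ^ n)
    (f : ℝ → ℝ) (hf : f ∈ K) (hft : Tendsto f atTop atTop) :
    ∃ i : ℕ, Cmp (fun x => Real.log^[i] (f x)) u := by
  by_contra hcon
  push Not at hcon
  have hstep : ∀ s : {p : ℕ × (ℝ → ℝ) // p.2 ∈ K ∧ Tendsto p.2 atTop atTop ∧
      Cmp (fun x => Real.log^[p.1] (f x)) p.2},
      ∃ t : {p : ℕ × (ℝ → ℝ) // p.2 ∈ K ∧ Tendsto p.2 atTop atTop ∧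
      Cmp (fun x => Real.log^[p.1] (f x)) p.2}, Big s.1.2 t.1.2 := by
    rintro ⟨⟨i, φ⟩, hφ, hφt, hφc⟩
    simp only at hφ hφt hφc
    have hbig : Big φ u := by
      refine big_of_not hK φ u hφ hu ?_
      rintro ⟨n, hn⟩
      obtain ⟨n', hn'⟩ := hsm φ hφ hφt
      apply hcon i
      refine cmp_trans (t_iter hft i) hφt hut hφc ⟨max n n', ?_, ?_⟩
      · filter_upwards [hn, hut.eventually_ge_atTop 1] with x x1 x2
        exact x1.trans (pow_le_pow_right₀ x2 (le_max_left _ _))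
      · filter_upwards [hn', hφt.eventually_ge_atTop 1] with x x1 x2
        exact x1.trans (pow_le_pow_right₀ x2 (le_max_right _ _))
    obtain ⟨ρ, hρ, hρt, hρc⟩ := hRO hHL M hM K hKM hK u hu hut hsm φ hφ hφt hbig
    have hlogφ : Tendsto (fun x => Real.log (φ x)) atTop atTop := Real.tendsto_log_atTop.comp hφt
    have hc : Cmp (fun x => Real.log^[i + 1] (f x)) ρ := by
      have e : (fun x => Real.log^[i + 1] (f x)) = fun x => Real.log (Real.log^[i] (f x)) := by
        funext x; exact Function.iterate_succ_apply' _ _ _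
      have h1 : Cmp (fun x => Real.log^[i + 1] (f x)) (fun x => Real.log (φ x)) := by
        rw [e]
        exact cmp_log (t_iter hft i) hφt hφc
      exact cmp_trans (t_iter hft (i + 1)) hlogφ hρt h1 (cmp_symm hρc)
    refine ⟨⟨(i + 1, ρ), hρ, hρt, hc⟩, ?_⟩
    intro k
    obtain ⟨n, hn1, -⟩ := hρc
    have hlim : Tendsto (fun x : ℝ => x ^ (n * k) / Real.exp x) atTop (𝓝 0) := by
      simpa using Real.tendsto_pow_mul_exp_neg_atTop_nhds_zero (n * k) |>.congr (fun x => by
        rw [Real.exp_neg, div_eq_mul_inv])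
    have hlim2 : Tendsto (fun x => Real.log (φ x) ^ (n * k) / φ x) atTop (𝓝 0) := by
      refine (hlim.comp hlogφ).congr' ?_
      filter_upwards [hφt.eventually_gt_atTop 0] with x hx
      simp only [Function.comp]
      rw [Real.exp_log hx]
    filter_upwards [hn1, hlim2.eventually_le_const (zero_lt_one), hφt.eventually_gt_atTop 0,
      hρt.eventually_ge_atTop 0] with x x1 x2 x3 x4
    rw [div_le_one x3] at x2
    calc ρ x ^ k ≤ (Real.log (φ x) ^ n) ^ k := pow_le_pow_left₀ x4 x1 k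
      _ = Real.log (φ x) ^ (n * k) := by rw [← pow_mul]
      _ ≤ φ x := x2
  choose nx hnx using hstep
  have h0 : Cmp (fun x => Real.log^[0] (f x)) f :=
    ⟨1, Eventually.of_forall fun x => by simp, Eventually.of_forall fun x => by simp⟩
  set s0 : {p : ℕ × (ℝ → ℝ) // p.2 ∈ K ∧ Tendsto p.2 atTop atTop ∧
      Cmp (fun x => Real.log^[p.1] (f x)) p.2} := ⟨(0, f), hf, hft, h0⟩
  refine hN (fun i => (nx^[i] s0).1.2) (fun i _ => ⟨(nx^[i] s0).2.1, (nx^[i] s0).2.2.1⟩)
    fun i _ => ?_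
  have := hnx (nx^[i] s0)
  simp only [Function.iterate_succ_apply']
  exact this

private lemma log_diff {A B : ℝ → ℝ} (hA : Tendsto A atTop atTop) (hB : Tendsto B atTop atTop)
    (h : Cmp A B) : Tendsto (fun x => Real.log (Real.log (Real.log (A x))) -
      Real.log (Real.log (Real.log (B x)))) atTop (𝓝 0) := by
  obtain ⟨k, h1, h2⟩ := h
  have hlA := Real.tendsto_log_atTop.comp hA
  have hlB := Real.tendsto_log_atTop.comp hB
  have hllA := Real.tendsto_log_atTop.comp hlA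
  have hllB := Real.tendsto_log_atTop.comp hlB
  have hk : 0 < k := by
    rcases Nat.eq_zero_or_pos k with h0 | h0
    · exfalso
      rw [h0] at h1
      obtain ⟨x, x1, x2⟩ := (h1.and (hA.eventually_gt_atTop 1)).exists
      rw [pow_zero] at x1
      linarith
    · exact h0
  have hk' : (0 : ℝ) < k := Nat.cast_pos.2 hk
  set c : ℝ := Real.log k with hc
  have hc0 : 0 ≤ c := Real.log_nonneg (by exact_mod_cast hk)
  have key : ∀ A B : ℝ → ℝ, Tendsto A atTop atTop → Tendsto B atTop atTop →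
      Tendsto (Real.log ∘ A) atTop atTop → Tendsto (Real.log ∘ B) atTop atTop →
      Tendsto (Real.log ∘ Real.log ∘ A) atTop atTop →
      Tendsto (Real.log ∘ Real.log ∘ B) atTop atTop →
      (∀ᶠ x in atTop, A x ≤ B x ^ k) → ∀ᶠ x in atTop,
        Real.log (Real.log (Real.log (A x))) - Real.log (Real.log (Real.log (B x))) ≤
          c * (Real.log (Real.log (B x)))⁻¹ := by
    intro A B hA hB hlA hlB hllA hllB h1
    filter_upwards [h1, hA.eventually_gt_atTop 0, hB.eventually_gt_atTop 0,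
      hlA.eventually_gt_atTop 0, hlB.eventually_gt_atTop 0, hllA.eventually_gt_atTop 0,
      hllB.eventually_gt_atTop 0] with x x1 x2 x3 x4 x5 x6 x7
    simp only [Function.comp] at x4 x5 x6 x7
    have y1 : Real.log (A x) ≤ k * Real.log (B x) := by
      rw [← Real.log_pow]; exact Real.log_le_log x2 x1
    have y2 : Real.log (Real.log (A x)) ≤ c + Real.log (Real.log (B x)) := by
      rw [hc, ← Real.log_mul hk'.ne' x5.ne']
      exact Real.log_le_log x4 y1
    rw [← Real.log_div x6.ne' x7.ne']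
    refine (Real.log_le_sub_one_of_pos (div_pos x6 x7)).trans ?_
    rw [← div_eq_mul_inv, sub_le_iff_le_add, div_le_iff₀ x7, add_mul, one_mul,
      div_mul_cancel₀ _ x7.ne']
    exact y2
  have k1 := key A B hA hB hlA hlB hllA hllB h1
  have k2 := key B A hB hA hlB hlA hllB hllA h2
  have z1 : Tendsto (fun x => c * (Real.log (Real.log (B x)))⁻¹) atTop (𝓝 0) := by
    have := (tendsto_inv_atTop_zero.comp hllB).const_mul c
    simpa using this
  have z2 : Tendsto (fun x => -(c * (Real.log (Real.log (A x)))⁻¹)) atTop (𝓝 0) := by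
    have := ((tendsto_inv_atTop_zero.comp hllA).const_mul c).neg
    simpa using this
  refine tendsto_of_tendsto_of_tendsto_of_le_of_le' z2 z1 ?_ k1
  filter_upwards [k2] with x hx
  linarith

theorem hLV : StLV := by
  intro hHL hRO M hM K hKM hK hid N hN f hf hft
  obtain ⟨u, hu, hut, hsm⟩ := exists_small hK hid N hN
  obtain ⟨i, hi⟩ := reach hM hHL hRO hKM hK N hN u hu hut hsm f hf hft
  obtain ⟨j, hj⟩ := reach hM hHL hRO hKM hK N hN u hu hut hsm (fun x => x) hid tendsto_id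
  have hc : Cmp (fun x => Real.log^[i] (f x)) (fun x => Real.log^[j] x) :=
    cmp_trans (t_iter hft i) hut (t_iter tendsto_id j) hi (cmp_symm hj)
  have h1 := log_diff (t_iter hft i) (t_iter tendsto_id j) hc
  refine ⟨i + 3, j + 3, ?_⟩
  have h2 : Tendsto (fun x : ℝ => Real.exp^[j + 3] x) atTop atTop :=
    Tendsto.iterate Real.tendsto_exp_atTop (j + 3)
  refine (h1.comp h2).congr fun x => ?_
  have e : ∀ (k : ℕ) (z : ℝ), Real.log (Real.log (Real.log (Real.log^[k] z))) =
      Real.log^[k + 3] z := by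
    intro k z
    rw [Function.iterate_succ_apply', Function.iterate_succ_apply', Function.iterate_succ_apply']
  simp only [Function.comp, id]
  rw [e, e]
  congr 1
  exact Function.LeftInverse.iterate Real.log_exp (j + 3) x

end Pool.Agent.Helper42.HG
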