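import Pool.Agent.Helper80.HG.St

/-!
Project HG (MP_1bacb5_al), module RB: basic facts on actions by germs.
-/

set_option autoImplicit false

namespace Pool.Agent.Helper42.HG

open Pool.Agent.Helper80.HG Filter Topology Asymptotics
open scoped commutatorElement

section

variable {H : Set (ℝ → ℝ)} {Γ : Type} [Group Γ] {θ : Γ → ℝ → ℝ}

private lemma rinv (hR : Rep H θ) (g : Γ) : ∀ᶠ x in atTop, θ g (θ g⁻¹ x) = x := by
  filter_upwards [hR.mul g g⁻¹, hR.one] with x h1 h2
  rw [← h1, mul_inv_cancel, h2]

private lemma linv (hR : Rep H θ) (g : Γ) : ∀ᶠ x in atTop, θ g⁻¹ (θ g x) = x := by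
  have := rinv hR g⁻¹
  simpa using this

private lemma rtrans (hR : Rep H θ) (g : Γ) (P : ℝ → Prop) (h : ∀ᶠ z in atTop, P (θ g z)) :
    ∀ᶠ w in atTop, P w := by
  filter_upwards [(hR.top g⁻¹).eventually h, rinv hR g] with w h1 h2
  rwa [h2] at h1

private lemma conj_eq (hR : Rep H θ) (g h : Γ) :
    ∀ᶠ z in atTop, θ (g * h * g⁻¹) (θ g z) = θ g (θ h z) := by
  filter_upwards [hR.mul (g * h * g⁻¹) g, hR.mul g h] with z h1 h2
  rw [← h1, inv_mul_cancel_right, h2]

end

theorem hRB : StRB := by
  intro H hB Γ _ θ hR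
  have hmono : ∀ g, ∃ M, StrictMonoOn (θ g) (Set.Ici M) := fun g =>
    hB.mono (θ g) (hR.mem g) (hR.top g)
  refine { toRep := hR, inv := rinv hR, trans := rtrans hR, mono := hmono, cont := ?_,
           dmem := ?_, tri := ?_, npos := ?_, pmul := ?_, pconj := ?_, pow := ?_, tmul := ?_,
           tinv := ?_, tconj := ?_ }
  · exact fun g => hB.cont (θ g) (hR.mem g)
  · exact fun g => hB.sub (θ g) (hR.mem g) (fun x => x) hB.id
  · intro g
    have hd : dsp θ g ∈ H := hB.sub (θ g) (hR.mem g) (fun x => x) hB.id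
    rcases hB.sign _ hd with h | h | h
    · left
      filter_upwards [h] with x hx
      unfold dsp at hx
      linarith
    · right; left
      filter_upwards [h] with x hx
      unfold dsp at hx
      linarith
    · right; right
      refine rtrans hR g (fun w => w < θ g⁻¹ w) ?_
      filter_upwards [h, linv hR g] with x hx h2
      rw [h2]
      unfold dsp at hx
      linarith
  · intro g hg
    refine ⟨fun ht => ?_, fun ht => ?_⟩
    · obtain ⟨x, h1, h2⟩ := (hg.and ht).exists
      rw [h2] at h1
      exact lt_irrefl _ h1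
    · obtain ⟨x, h1, h2, h3⟩ :=
        (ht.and ((rinv hR g).and ((hR.top g⁻¹).eventually hg))).exists
      rw [h2] at h3
      exact lt_irrefl _ (h1.trans h3)
  · intro g h hg hh
    filter_upwards [hR.mul g h, hh, (hR.top h).eventually hg] with x h1 h2 h3
    rw [h1]
    exact h2.trans h3
  · intro g h hh
    obtain ⟨M, hM⟩ := hmono g
    refine rtrans hR g (fun w => w < θ (g * h * g⁻¹) w) ?_
    filter_upwards [conj_eq hR g h, hh, eventually_ge_atTop M] with z h1 h2 h3
    rw [h1]
    exact hM h3 (Set.mem_Ici.2 (h3.trans h2.le)) h2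
  · intro g hg n hn
    induction n, hn using Nat.le_induction with
    | base =>
      rw [pow_one]
      exact Eventually.of_forall fun x => le_rfl
    | succ n hn ih =>
      filter_upwards [ih, hR.mul g (g ^ n), (hR.top (g ^ n)).eventually hg] with x h1 h2 h3
      rw [pow_succ', h2]
      exact h1.trans h3.le
  · intro g h hg hh
    filter_upwards [hR.mul g h, hg, hh] with x h1 h2 h3
    rw [h1, h3, h2]
  · intro g hg
    refine rtrans hR g (fun w => θ g⁻¹ w = w) ?_
    filter_upwards [hg, linv hR g] with z h1 h2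
    rw [h2, h1]
  · intro g h hh
    refine rtrans hR g (fun w => θ (g * h * g⁻¹) w = w) ?_
    filter_upwards [conj_eq hR g h, hh] with z h1 h2
    rw [h1, h2]

end Pool.Agent.Helper42.HG
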